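import Pool.Agent.K1H2.UB.Stm

/-! Project UB (owner helper2), piece FIN (task 22006): union bound. -/

set_option autoImplicit false

open scoped ENNReal
open Finset Filter Topology Pool.Agent.K1H53.BI Pool.Agent.K1H2.UB

namespace Pool.Agent.K1H26.UB

theorem Ex_sum {α β : Type} (p : PMF α) (S : Finset β) (g : β → α → ℝ≥0∞) :
    Ex p (fun a => ∑ z ∈ S, g z a) = ∑ z ∈ S, Ex p (g z) := by
  classical
  induction S using Finset.induction_on with
  | empty => simp [Ex]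
  | insert b S hb ih =>
    simp only [Finset.sum_insert hb]
    rw [Ex_add, ih]

theorem exists_of_devI {T : ℕ} {A : Finset V} {E : ℝ} (hE : 0 < E) (h : E ≤ devI T A) :
    ∃ z : V, nrm z < rad T - E / 2 ∧ z ∉ A := by
  by_contra hcon
  push Not at hcon
  have h1 : devI T A ≤ E / 2 := by
    unfold devI
    apply csInf_le
    · exact ⟨0, fun δ hδ => hδ.1⟩
    · exact ⟨by linarith, fun z hz => hcon z hz⟩
  linarith

theorem mem_box {N : ℕ} {z : V} (h : nrm z < N) :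
    z ∈ Fintype.piFinset (fun _ : Fin 3 => Finset.Icc (-(N : ℤ)) (N : ℤ)) := by
  have h1 : (nsq z : ℝ) < (N : ℝ) ^ 2 := by
    unfold nrm at h
    exact (Real.sqrt_lt' (lt_of_le_of_lt (Real.sqrt_nonneg _) h)).mp h
  have h2 : nsq z < N ^ 2 := by exact_mod_cast h1
  rw [Fintype.mem_piFinset]
  intro i
  rw [Finset.mem_Icc]
  have h3 : (z i).natAbs ^ 2 ≤ nsq z := by
    unfold nsq
    exact Finset.single_le_sum (f := fun i => (z i).natAbs ^ 2) (fun _ _ => Nat.zero_le _)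
      (Finset.mem_univ i)
  have h4 : (z i).natAbs < N := lt_of_pow_lt_pow_left₀ 2 (Nat.zero_le _) (lt_of_le_of_lt h3 h2)
  omega

theorem box_card (N : ℕ) :
    (Fintype.piFinset (fun _ : Fin 3 => Finset.Icc (-(N : ℤ)) (N : ℤ))).card =
      (2 * N + 1) ^ 3 := by
  rw [Fintype.card_piFinset]
  have : ((N : ℤ) + 1 + (N : ℤ)).toNat = 2 * N + 1 := by omega
  simp [Int.card_Icc, this]

theorem prob_union (hinv : S_INV) (ν : PMF ℕ) (T : ℕ) (E : ℝ) (hE : 0 < E) (N : ℕ)
    (hN : rad T - E / 2 ≤ N) (b : ℝ≥0∞)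
    (hb : ∀ z : V, z ≠ 0 → nrm z < rad T - E / 2 → prob ν T (fun A => z ∉ A) ≤ b) :
    prob ν T (fun A => E ≤ devI T A) ≤ (((2 * N + 1) ^ 3 : ℕ) : ℝ≥0∞) * b := by
  classical
  obtain ⟨S, hSdef⟩ : ∃ S : Finset V, S = (Fintype.piFinset
    (fun _ : Fin 3 => Finset.Icc (-(N : ℤ)) (N : ℤ))).filter
      (fun z => z ≠ 0 ∧ nrm z < rad T - E / 2) := ⟨_, rfl⟩
  have hS : S.card ≤ (2 * N + 1) ^ 3 := by
    rw [hSdef]
    exact (Finset.card_filter_le _ _).trans (box_card N).le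
  unfold prob
  apply iSup_le
  intro n
  calc Ex (law (step ν) T n) (ind fun s => Fin' s ∧ E ≤ devI T s.A)
      ≤ Ex (law (step ν) T n) (fun s => ∑ z ∈ S, ind (fun s : St => Fin' s ∧ z ∉ s.A) s) := by
        apply Ex_mono
        intro s hs
        have h0 : (0 : V) ∈ s.A := ((hinv ν 0 T n s).1 hs).zero_mem
        by_cases h1 : Fin' s ∧ E ≤ devI T s.A
        · obtain ⟨z, hz1, hz2⟩ := exists_of_devI hE h1.2
          have hz0 : z ≠ 0 := by rintro rfl; exact hz2 h0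
          have hzS : z ∈ S := by
            rw [hSdef, Finset.mem_filter]
            exact ⟨mem_box (lt_of_lt_of_le hz1 hN), hz0, hz1⟩
          have h2 : ind (fun s => Fin' s ∧ E ≤ devI T s.A) s = 1 := by
            unfold ind; rw [if_pos h1]
          have h3 : ind (fun s : St => Fin' s ∧ z ∉ s.A) s = 1 := by
            unfold ind; rw [if_pos ⟨h1.1, hz2⟩]
          rw [h2, ← h3]
          exact Finset.single_le_sum (f := fun z => ind (fun s : St => Fin' s ∧ z ∉ s.A) s)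
            (fun _ _ => zero_le) hzS
        · have h2 : ind (fun s => Fin' s ∧ E ≤ devI T s.A) s = 0 := by
            unfold ind; rw [if_neg h1]
          rw [h2]
          exact zero_le
    _ = ∑ z ∈ S, Ex (law (step ν) T n) (ind (fun s : St => Fin' s ∧ z ∉ s.A)) := Ex_sum _ _ _
    _ ≤ ∑ z ∈ S, b := by
        apply Finset.sum_le_sum
        intro z hz
        rw [hSdef, Finset.mem_filter] at hz
        refine le_trans ?_ (hb z hz.2.1 hz.2.2)
        exact le_iSup (fun n => Ex (law (step ν) T n) (ind (fun s : St => Fin' s ∧ z ∉ s.A))) n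
    _ = S.card * b := by simp
    _ ≤ _ := by
        apply mul_le_mul_left
        exact_mod_cast hS

theorem tendsto_rad : Tendsto rad atTop atTop := by
  unfold rad
  apply (tendsto_rpow_atTop (by norm_num : (0 : ℝ) < 1 / 3)).comp
  have h : (fun t : ℕ => 3 * (t : ℝ) / (4 * Real.pi)) = fun t : ℕ => (3 / (4 * Real.pi)) * (t : ℝ) := by
    funext t; ring
  rw [h]
  exact tendsto_natCast_atTop_atTop.const_mul_atTop (by positivity)

theorem rad_cube (T : ℕ) : (T : ℝ) ≤ 5 * rad T ^ 3 := by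
  have h : rad T ^ 3 = 3 * T / (4 * Real.pi) := by
    unfold rad
    rw [← Real.rpow_natCast, ← Real.rpow_mul (by positivity)]
    norm_num
  rw [h]
  have hpi := Real.pi_pos
  have h2 : Real.pi < 3.15 := Real.pi_lt_d2
  rw [mul_div_assoc', le_div_iff₀ (by positivity)]
  have hT : (0 : ℝ) ≤ T := Nat.cast_nonneg T
  nlinarith

theorem t_FIN : Pool.Agent.K1H2.UB.S_FIN := by
  intro hpt hinv ν hν ε hε k
  obtain ⟨c, N₀, hc, hmain⟩ := hpt ν hν
  have ev1 : ∀ᶠ r : ℝ in atTop, 4 / c ≤ r ^ ε := (tendsto_rpow_atTop hε).eventually_ge_atTop _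
  have ev2 : ∀ᶠ r : ℝ in atTop, 4 ≤ r ^ ((1 : ℝ) / 2 + ε) :=
    (tendsto_rpow_atTop (by positivity)).eventually_ge_atTop _
  have ev3 : ∀ᶠ r : ℝ in atTop, (N₀ : ℝ) + 4 ≤ r := eventually_ge_atTop _
  have ev4 : ∀ᶠ r : ℝ in atTop,
      27 * 5 ^ k * (r ^ (3 + 3 * k) * Real.exp (-(c * ε / 16) * r ^ ε)) ≤ 1 := by
    have h1 := (tendsto_rpow_mul_exp_neg_mul_atTop_nhds_zero (((3 + 3 * k : ℕ) : ℝ) / ε)
      (c * ε / 16) (by positivity)).comp (tendsto_rpow_atTop hε)
    have h2 := h1.const_mul (27 * 5 ^ k : ℝ)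
    rw [mul_zero] at h2
    have h3 := h2.eventually (eventually_le_nhds (zero_lt_one))
    filter_upwards [h3, eventually_ge_atTop (0 : ℝ)] with r hr hr0
    simp only [Function.comp] at hr
    have e : (r ^ ε) ^ (((3 + 3 * k : ℕ) : ℝ) / ε) = r ^ (3 + 3 * k) := by
      rw [← Real.rpow_mul hr0, mul_div_cancel₀ _ hε.ne', Real.rpow_natCast]
    rw [e] at hr
    exact hr
  have ev := tendsto_rad.eventually (ev1.and (ev2.and (ev3.and ev4)))
  obtain ⟨T₀, hT₀⟩ := eventually_atTop.mp ev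
  refine ⟨max T₀ 1, fun T hT => ?_⟩
  obtain ⟨h1, h2, h3, h4⟩ := hT₀ T ((le_max_left _ _).trans hT)
  have hT1 : 1 ≤ T := (le_max_right _ _).trans hT
  obtain ⟨r, hr⟩ : ∃ r, r = rad T := ⟨_, rfl⟩
  rw [← hr] at h1 h2 h3 h4 ⊢
  have hN0r : (0 : ℝ) ≤ N₀ := Nat.cast_nonneg _
  have hr0 : 0 < r := by linarith
  obtain ⟨N, hN⟩ : ∃ N, N = ⌊r⌋₊ := ⟨_, rfl⟩
  have hN1 : (N : ℝ) ≤ r := by rw [hN]; exact Nat.floor_le hr0.le
  have hN2 : r < N + 1 := by rw [hN]; exact Nat.lt_floor_add_one r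
  have hN3 : (3 : ℝ) ≤ N := by linarith
  have hNN : N₀ ≤ N := by
    have : (N₀ : ℝ) ≤ N := by linarith
    exact_mod_cast this
  obtain ⟨E, hE⟩ : ∃ E, E = r ^ ((1 : ℝ) / 2 + ε) := ⟨_, rfl⟩
  rw [← hE] at h2 ⊢
  have hre : 0 < r ^ ε := Real.rpow_pos_of_pos hr0 _
  have hE1 : E = Real.sqrt r * r ^ ε := by
    rw [hE, Real.rpow_add hr0, Real.sqrt_eq_rpow]
  have hE2 : E ^ 2 = r * r ^ ε * r ^ ε := by
    rw [hE1, mul_pow, Real.sq_sqrt hr0.le]; ring
  have hlog0 : 0 < Real.log N := Real.log_pos (by linarith)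
  have hlog : Real.log N ≤ r ^ ε / ε :=
    (Real.log_le_log (by linarith) hN1).trans (Real.log_le_rpow_div hr0.le hε)
  have key := prob_union hinv ν T E (by linarith) N (by rw [← hr]; linarith)
    (ENNReal.ofReal (Real.exp (-(c * ε / 16) * r ^ ε))) (by
      intro z hz hzn
      rw [← hr] at hzn
      have hd : E / 4 ≤ (N : ℝ) - nrm z := by linarith
      have hsq : Real.sqrt N / c ≤ (N : ℝ) - nrm z := by
        refine le_trans ?_ hd
        rw [hE1]
        have a1 : Real.sqrt N ≤ Real.sqrt r := Real.sqrt_le_sqrt hN1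
        have a2 : 1 / c ≤ r ^ ε / 4 := by
          have : 4 / c = 4 * (1 / c) := by ring
          linarith
        calc Real.sqrt N / c = Real.sqrt N * (1 / c) := by ring
          _ ≤ Real.sqrt r * (r ^ ε / 4) :=
            mul_le_mul a1 a2 (by positivity) (Real.sqrt_nonneg _)
          _ = Real.sqrt r * r ^ ε / 4 := by ring
      refine (hmain T N z hNN (by rw [← hr]; exact hN1) hz hsq).trans ?_
      apply ENNReal.ofReal_le_ofReal
      apply Real.exp_le_exp.mpr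
      have b1 : c * ε / 16 * r ^ ε ≤
          c * ((N : ℝ) - nrm z) ^ 2 / ((N : ℝ) * Real.log N) := by
        rw [le_div_iff₀ (by positivity)]
        have b2 : (N : ℝ) * Real.log N ≤ r * (r ^ ε / ε) :=
          mul_le_mul hN1 hlog hlog0.le hr0.le
        calc c * ε / 16 * r ^ ε * ((N : ℝ) * Real.log N)
            ≤ c * ε / 16 * r ^ ε * (r * (r ^ ε / ε)) :=
              mul_le_mul_of_nonneg_left b2 (by positivity)
          _ = c * (E / 4) ^ 2 := by
              rw [div_pow, hE2]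
              field_simp
              norm_num
          _ ≤ c * ((N : ℝ) - nrm z) ^ 2 := by
              apply mul_le_mul_of_nonneg_left _ hc.le
              exact pow_le_pow_left₀ (by linarith) hd 2
      linarith)
  refine key.trans ?_
  have hcast : (((2 * N + 1) ^ 3 : ℕ) : ℝ≥0∞) = ENNReal.ofReal ((2 * (N : ℝ) + 1) ^ 3) := by
    have : ((2 * (N : ℝ) + 1) ^ 3) = (((2 * N + 1) ^ 3 : ℕ) : ℝ) := by push_cast; ring
    rw [this, ENNReal.ofReal_natCast]
  rw [hcast, ← ENNReal.ofReal_mul (by positivity)]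
  apply ENNReal.ofReal_le_ofReal
  have hTp : (0 : ℝ) < (T : ℝ) ^ k := by
    have : (0 : ℝ) < T := by exact_mod_cast hT1
    positivity
  rw [le_div_iff₀ hTp]
  have hT5 : (T : ℝ) ^ k ≤ (5 * r ^ 3) ^ k := by
    apply pow_le_pow_left₀ (Nat.cast_nonneg T)
    rw [hr]; exact rad_cube T
  have hb : (2 * (N : ℝ) + 1) ^ 3 ≤ (3 * r) ^ 3 :=
    pow_le_pow_left₀ (by positivity) (by linarith) 3
  have hexp := Real.exp_pos (-(c * ε / 16) * r ^ ε)
  calc (2 * (N : ℝ) + 1) ^ 3 * Real.exp (-(c * ε / 16) * r ^ ε) * (T : ℝ) ^ k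
      ≤ (3 * r) ^ 3 * Real.exp (-(c * ε / 16) * r ^ ε) * (5 * r ^ 3) ^ k :=
        mul_le_mul (mul_le_mul_of_nonneg_right hb hexp.le) hT5 hTp.le (by positivity)
    _ = 27 * 5 ^ k * (r ^ (3 + 3 * k) * Real.exp (-(c * ε / 16) * r ^ ε)) := by
        rw [mul_pow, mul_pow, pow_add, pow_mul]; ring
    _ ≤ 1 := h4

end Pool.Agent.K1H26.UB
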